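import Pool.Agent.L0h77.CK.Main

/-!
# Turing and many-one completeness barely above NP

The definitions used in the statement are in `Pool/Agent/L0h77/CK/Defs.lean` (`Nice`, `tb`, `InNT`,
`TwoQueries`, `OneQuery`) and `Pool/Agent/NPC/Defs.lean` (`PolyTime`, `InNP`, `Reduces`; polynomial
time is polynomial time of the Turing machines of Mathlib).

`InNT α` is nondeterministic time `n ^ O(α(n))`: languages with certificates of length at most
`(n + 2) ^ (c (α(n) + 1))` that are verified in polynomial time in the length of the input and the
certificate together. For constant `α` this is the class `NP`. Here `α` is nondecreasing and
unbounded, and may grow as slowly as one likes (for example the inverse of a fast growing function),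
so the class may be arbitrarily little above `NP`.

Theorem: some set `A` is complete for `NTIME (n ^ O(α(n)))` under disjunctive truth-table
reductions with two queries, so Turing complete, and Turing hard for `NP`; but for no nondecreasing
unbounded `β` is it hard for `NTIME (n ^ O(β(n)))` under many-one reductions, or under Turing
reductions with one query, not even for the tally sets in both classes.

Proof: the set contains `0 u` and `1 u` for the members `u` of a universal set, except for one
string for each stage. A stage is an interval of numbers `n`, and belongs to one candidate for a
reduction, which asks the question `q(n)` on the input `1 ^ n`. If some `q(n)` in the interval is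
long (membership of strings of this length cannot be decided within the time allowed for `D` on
`1 ^ n`) then the first such question is excluded from `A`, which can be recognised in the time
allowed for `A`, and `D` contradicts the answer no. If all questions are short, then `D` can ask
them nondeterministically; negative verdicts are contradicted at once, and positive ones lead to a
chain of equivalences through the interval, up to its last element, where `D` decides the first
question by brute force and takes the opposite.
-/

set_option autoImplicit false

namespace Pool.Agent.Results.MP_675993_lc.BarelyAboveNP

open Pool.Agent.NPC Pool.Agent.L0h77.CK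

/-- (1) `InNT` of a constant is `NP`. (2) For every nondecreasing unbounded `α`, computable in
polynomial time from unary numbers, there is a set `A` which is complete for nondeterministic time
`n ^ O(α(n))` under reductions with two (disjunctive) queries, and for every such `β` there is a
tally set in nondeterministic time `n ^ O(α(n))` and in nondeterministic time `n ^ O(β(n))` which
does not reduce to `A` by many-one reductions and by reductions with one query. -/
theorem result :
    (∀ L : Set (List Bool), InNT (fun _ => 0) L ↔ InNP L) ∧
    ∀ α : ℕ → ℕ, Nice α → Monotone α → Filter.Tendsto α Filter.atTop Filter.atTop →
      ∃ A : Set (List Bool), InNT α A ∧ (∀ L, InNT α L → TwoQueries L A) ∧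
        (∀ L, InNP L → TwoQueries L A) ∧
        ∀ β : ℕ → ℕ, Nice β → Monotone β → Filter.Tendsto β Filter.atTop Filter.atTop →
          ∃ D : Set (List Bool), InNT α D ∧ InNT β D ∧
            (∀ x ∈ D, x = List.replicate x.length true) ∧ ¬ Reduces D A ∧ ¬ OneQuery D A := by
  refine ⟨inNT_zero_iff, fun α hα mα uα => ?_⟩
  obtain ⟨A, h1, h2, h3⟩ := main hα mα uα
  refine ⟨A, h1, h2, fun L hL => h2 L (InNP.inNT hL), fun β hβ mβ uβ => ?_⟩
  obtain ⟨D, h4, h5, h6, h7⟩ := h3 β hβ mβ uβ
  exact ⟨D, h4, h5, h6, fun h => h7 (Reduces.oneQuery h), h7⟩

end Pool.Agent.Results.MP_675993_lc.BarelyAboveNP
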