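import Pool.Agent.L0h34.RO.TFin

/-!
# Completeness for NP with one query, relative to a random oracle

Relative to almost every oracle `R`, every set in `NP` which is complete for `NP` under
polynomial-time reductions with one query (1-truth-table reductions) is complete under many-one
reductions, and even under one-one length-increasing many-one reductions.

Proof idea. Let `B` be in `NP`. Mask `B`: an instance consists of bits `p`, `p'`, a string `v` of length
`3 m` and an instance `x` of `B`; it is accepted if for some `s` of length `m` the string `v` is written in
the oracle at the places of `s` (the contents of `s`), and the two hidden bits of the oracle at the places of
`s` are such that either the first one differs from `p` and `x` is in `B`, or the second one differs from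
`p'`. This set `T` is in `NP`, so it has a reduction `h` with one query to the complete set `A`. For each `x`
there are a random seed `s`, a spare random seed `s'`, and a spare random block of `3 m` bits (all read from the
oracle at private addresses of `x`). The candidates are the instances for `x` with the contents of `s`, with
the contents of `s'`, or with the spare block, and with any bits `p`, `p'`. The reduction `h` cannot see the
difference between them. Now change the oracle by exchanging contents with the spare block or by changing
hidden bits; all these changes preserve the measure. If `h` answered for a candidate in a negative way (yes if
the query is not in `A`), make this candidate have the spare block as its contents; it is then not in `T`, so
the query is in `A`, and this is witnessed by few places of the oracle; the witness survives when the spare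
block is moved to the places of `s'` and a hidden bit of `s'` is changed, although this changes the value of
the instance. So in the changed oracle `h` is wrong. Short queries and collisions are treated similarly. The
first strings `x` at which something of this kind happens give disjoint events, so it happens for
infinitely many `x` with probability zero.
-/

set_option autoImplicit false

namespace Pool.Agent.Results.MP_675993_lc.OneQueryRandomOracle

open Pool.Agent.L0h34.OM Pool.Agent.L0h34.RO

theorem result : ∀ᵐ R ∂randomOracle, ∀ A : Set (List Bool), OneQueryComplete R A →
    CompleteFor R (NPU R) A ∧ ∀ B : Set (List Bool), NPU R B → OneOneLIU R B A := main_OneQuery

end Pool.Agent.Results.MP_675993_lc.OneQueryRandomOracle
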