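import Pool.Agent.L0h34.CO.Final

/-!
# One query can be stronger than a many-one reduction, relative to an oracle with NP = PSPACE

There is an oracle relative to which `P` is not `NP`, `NP` contains `PSPACE`, and some set in `NP` is complete
for `NP` under polynomial-time reductions with one query (1-truth-table reductions), but is not
complete under many-one reductions, not even under many-one reductions that run in time less than
`2 ^ (n - 1)` for infinitely many `n`.

Proof idea. The oracle codes the answers of all clocked verifiers and all space-bounded machines that use the
oracle itself: for each instance `v` there is one place `(κ, v, w)` where the oracle is `true`, the bit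
`κ` is the value of `v`, and `w` is a hidden string as long as `v`. So the set `K` of the instances with value
`true` is in `NP`, and so is its complement. The oracle has also a mask bit `b v` for each `v`, which can be
read directly. The set `A` of all `v` whose value differs from `b v` is in `NP`, and it is complete
with one query. The masks are chosen such that no fast many-one reduction from `K` to `A` exists: for a long
string `x` whose value is a free bit, the masks of the strings `y` are chosen, in the order of their
lengths, such that for a random choice of the free bits and of the hidden strings the value of `x` is
different from the masked value of `y` with probability at least one half. A fast machine does not find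
hidden strings, so its output `y` does not depend on the random choice, and it is wrong with
probability almost one half. The theorem of Baire gives an oracle that works for all machines.
-/

set_option autoImplicit false

namespace Pool.Agent.Results.MP_675993_lc.OneQuerySeparation

open Pool.Agent.L0h34.OM Pool.Agent.L0h34.RO Pool.Agent.L0h34.CO

theorem result : ∃ R : Oracle, (∀ L, PSPACEU R L → NPU R L) ∧
    ∃ A B : Set (List Bool), OneQueryComplete R A ∧ ¬ CompleteFor R (NPU R) A ∧ NPU R B ∧
      ∀ t : ℕ → ℕ, (∀ N : ℕ, ∃ n ≥ N, 2 * t n < 2 ^ n) → ∀ f, TimeU R t f →
        (∃ x, ¬ (x ∈ B ↔ f x ∈ A)) ∧ ∃ x, ¬ (x ∈ B ↔ f x ≠ []) := main_CO

end Pool.Agent.Results.MP_675993_lc.OneQuerySeparation
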