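import Pool.Agent.L0h33.TT.Main

/-!
# Completeness for NP and rounds of nonadaptive queries, relative to a random oracle

A reduction with `r (n)` rounds asks in every round a list of queries, which are answered at the same
time; the next list may depend on all the answers received so far. With one round these are the
truth-table reductions; the polynomial-time Turing reductions (Cook reductions) are the reductions
with a polynomial number of rounds.

Relative to almost every oracle `A`:

1. For every `k` there is a set in `NP` which is complete for `NP` under polynomial-time reductions
   with `k + 1` rounds, but not under reductions with `k` rounds. So there is an infinite hierarchy of
   completeness notions between truth-table completeness and Turing completeness. For all `k` the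
   same tally set in `NP` is not reducible to the complete set.
2. There is a set which is complete for `NP` under polynomial-time Turing reductions, but for every
   polynomial `p` it is not complete under reductions with `p (n)` rounds. In particular it is not
   complete under truth-table reductions, nor under many-one reductions.

Proof idea. A key for the index `m` and the label `v` is a string of the form `t z v`, where `t` is a
tag and `z` a string of length `m`, such that `m` bits of the oracle at the places belonging to
`t z v` are `1`; then `t z v` is the next label. The complete set contains the answers to the questions
whether there is a key with the tag `t` for the label `v` whose bit number `j` is `1`, and the answers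
to the instances `y` of a universal `NP` set, but the latter only if the query contains a label which is
a chain of `k` valid keys (or of `m` keys, for the second part) for an index `m` not smaller than the
length of any string which the verifier may ask for `y`. For almost all oracles and almost all indices,
for every label one of the tags has a unique key, which can be found in one round of queries. On the
other hand a reduction which asks at most `k` rounds, or `p (n)` rounds if the index is at least
`p (n)`, does not find the whole chain: as long as no chain of `r` keys was found in the first `r - 1`
rounds, the answers do not depend on the keys number `r`, so planting such a key at random is not
noticed and the key is not guessed. Therefore a reduction of the tally set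
`{1^n : some string w of length n is marked by the oracle at places of length more than 2 p (n)}` does
not notice if such a mark is planted, and is wrong with probability bounded from below, for all
large `n`.
-/

set_option autoImplicit false

namespace Pool.Agent.Results.MP_675993_lc.RoundHierarchy

open Pool.Agent.H628R3.RO Pool.Agent.L0h33.TT

theorem result : ∀ᵐ A ∂randomOracle,
    (∃ B : Set (List Bool), IsNP A B ∧ (∀ x ∈ B, x = List.replicate x.length true) ∧
      ∀ k : ℕ, ∃ C : Set (List Bool), IsNP A C ∧
        (∀ L, IsNP A L → RoundRed A (fun _ => k + 1) L C) ∧ ¬ RoundRed A (fun _ => k) B C) ∧
    ∃ C : Set (List Bool), IsNP A C ∧ (∀ L, IsNP A L → TuringRed A L C) ∧
      ∀ p : Polynomial ℕ, ∃ B : Set (List Bool), IsNP A B ∧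
        (∀ x ∈ B, x = List.replicate x.length true) ∧ ¬ RoundRed A (fun n => p.eval n) B C :=
  main

end Pool.Agent.Results.MP_675993_lc.RoundHierarchy
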